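import Pool.Agent.P.MP_50039c_nt.RS.FinH
import Pool.Agent.P.MP_50039c_nt.RS.GT
import Pool.Agent.P.MP_50039c_nt.RS.TR24
import Pool.Agent.P.MP_50039c_nt.RS.TR33

set_option autoImplicit false

namespace Pool.Agent.Results.MP_50039c_nt.AllGenera

open Polynomial Pool.Agent.P.MP_50039c_nt Pool.Agent.P.MP_6f117a_ag

universe u

/-- The coefficient of `X ^ 8` in the third cuboid polynomial, with `A = a ^ 2` and so on. -/
def c4 {R : Type u} [CommRing R] (A B C : R) : R :=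
  A ^ 2 + B ^ 2 + C ^ 2 + 4 * A * C + 4 * B * C - 12 * A * B

/-- The coefficient of `X ^ 6`. -/
def c3 {R : Type u} [CommRing R] (A B C : R) : R :=
  6 * A ^ 2 * C + 6 * B ^ 2 * C - 8 * A * B * C - 2 * A * C ^ 2 - 2 * B * C ^ 2
    - 2 * A ^ 2 * B - 2 * A * B ^ 2

/-- The coefficient of `X ^ 4`. -/
def c2 {R : Type u} [CommRing R] (A B C : R) : R :=
  4 * A * B ^ 2 * C + 4 * A ^ 2 * B * C - 12 * A * B * C ^ 2 + A ^ 2 * C ^ 2 + B ^ 2 * C ^ 2
    + A ^ 2 * B ^ 2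

/-- The coefficient of `X ^ 2`. -/
def c1 {R : Type u} [CommRing R] (A B C : R) : R :=
  6 * A ^ 2 * B ^ 2 * C - 2 * A ^ 2 * B * C ^ 2 - 2 * A * B ^ 2 * C ^ 2

/-- The third cuboid polynomial `P_{a,b,c}(X)` is `sextic (a ^ 2) (b ^ 2) (c ^ 2) (X ^ 2)`. -/
def sextic {R : Type u} [CommRing R] (A B C T : R) : R :=
  T ^ 6 + (6 * C - 2 * A - 2 * B) * T ^ 5 + c4 A B C * T ^ 4 + c3 A B C * T ^ 3
    + c2 A B C * T ^ 2 + c1 A B C * T + A ^ 2 * B ^ 2 * C ^ 2

theorem sextic_eq {R : Type u} [CommRing R] (A B C T : R) : sextic A B C T = LV.QQ A B C T := by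
  unfold LV.QQ sextic c4 c3 c2 c1
  ring

/-- Off one plane curve, the families `(a : b : c)` for which the third cuboid polynomial, as a
sextic in `T = X ^ 2`, is reducible have degree at most linear in the genus minus one. -/
theorem result (L : Type u) [Field L] [IsAlgClosed L] [CharZero L] :
    ∃ (α : ℕ) (G : MvPolynomial (Fin 3) L) (e : ℕ), G ≠ 0 ∧ G.IsHomogeneous e ∧
      ∀ (K : Type u) [Field K] [Algebra L K], (⊤ : IntermediateField L K).FG →
        Algebra.trdeg L K = 1 → ∀ a b c : K,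
          ¬ Irreducible (sextic (C (a ^ 2)) (C (b ^ 2)) (C (c ^ 2)) X : K[X]) →
          MvPolynomial.aeval ![a, b, c] G ≠ 0 →
            degree L ![a, b, c] ≤ α * max 0 ((genus L K : ℤ) - 1) := by
  obtain ⟨α, G, e, h1, h2, h3⟩ :=
    RS.tall_all (RS.all_GT8 L) (RS.all_GTV L) (RS.p_R24 L) (RS.p_R33 L)
  exact ⟨α, G, e, h1, h2, fun K _ _ fg td a b c h =>
    h3 K fg td a b c fun _ => sextic_eq (R := K[X]) _ _ _ _ ▸ h⟩

end Pool.Agent.Results.MP_50039c_nt.AllGenera
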