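import Mathlib
import Pool.Prelude.Def_F_ee2aeab6
import Pool.Agent.P.MP_50039c_nt.Main

set_option autoImplicit false

namespace Pool.Agent.Results.MP_50039c_nt.GeometricMean

/-- The third cuboid polynomial is irreducible whenever `c` is the geometric mean of `a ≠ b`. -/
theorem result (a b c : ℤ) (ha : 0 < a) (hb : 0 < b) (hab : a ≠ b) (hc : c ^ 2 = a * b) :
    N2f636d21.CuboidThreeFor a b c := by
  refine Pool.Agent.P.MP_50039c_nt.main a b c ?_ hab hc
  rintro rfl
  have := mul_pos ha hb
  rw [← hc] at this
  simp at this

end Pool.Agent.Results.MP_50039c_nt.GeometricMean
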