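import Pool.Prelude.Def_F_ee2aeab6
import Pool.Agent.P.MP_50039c_nt.SqF

set_option autoImplicit false

namespace Pool.Agent.Results.MP_50039c_nt.SquarefreePart

open Polynomial Pool.Agent.P.MP_50039c_nt

/-- coefficient of `X ^ 8` -/
def k8 (a b c : ℤ) : ℤ :=
  c ^ 4 + b ^ 4 + a ^ 4 + 4 * a ^ 2 * c ^ 2 + 4 * b ^ 2 * c ^ 2 - 12 * b ^ 2 * a ^ 2

/-- coefficient of `X ^ 6` -/
def k6 (a b c : ℤ) : ℤ :=
  6 * a ^ 4 * c ^ 2 + 6 * c ^ 2 * b ^ 4 - 8 * a ^ 2 * b ^ 2 * c ^ 2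
    - 2 * c ^ 4 * a ^ 2 - 2 * c ^ 4 * b ^ 2 - 2 * a ^ 4 * b ^ 2 - 2 * b ^ 4 * a ^ 2

/-- coefficient of `X ^ 4` -/
def k4 (a b c : ℤ) : ℤ :=
  4 * c ^ 2 * b ^ 4 * a ^ 2 + 4 * a ^ 4 * c ^ 2 * b ^ 2
    - 12 * c ^ 4 * a ^ 2 * b ^ 2 + c ^ 4 * a ^ 4 + c ^ 4 * b ^ 4 + a ^ 4 * b ^ 4

/-- coefficient of `X ^ 2` -/
def k2 (a b c : ℤ) : ℤ :=
  6 * a ^ 4 * c ^ 2 * b ^ 4 - 2 * c ^ 4 * a ^ 4 * b ^ 2 - 2 * c ^ 4 * a ^ 2 * b ^ 4

/-- the third cuboid polynomial -/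
noncomputable def cuboid (a b c : ℤ) : ℤ[X] :=
  X ^ 12 + C (6 * c ^ 2 - 2 * a ^ 2 - 2 * b ^ 2) * X ^ 10 + C (k8 a b c) * X ^ 8
    + C (k6 a b c) * X ^ 6 + C (k4 a b c) * X ^ 4 + C (k2 a b c) * X ^ 2
    + C (c ^ 4 * a ^ 4 * b ^ 4)

/-- `cuboid` is the polynomial of the frozen statement. -/
example (a b c : ℤ) : N2f636d21.CuboidThreeFor a b c ↔ Irreducible (cuboid a b c) := Iff.rfl

/-- If the primes dividing `(a ^ 2 - c ^ 2) * (b ^ 2 - c ^ 2)` exactly once have a large product,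
the third cuboid polynomial is irreducible or splits into two cubics in `X ^ 2`, and the latter
happens neither for `a`, `b` odd and `c` even nor when the product is larger still. -/
theorem result (a b c m k : ℤ) (ha : 0 < a) (hb : 0 < b) (hc : 0 < c)
    (hodd : Odd a ∨ Odd b ∨ Odd c) (hw : (a ^ 2 - c ^ 2) * (b ^ 2 - c ^ 2) = m * k)
    (hm : Squarefree m) (hk : IsCoprime m k) (hN : 20 * max a (max b c) ^ 2 < m) :
    N2f636d21.CuboidThreeFor a b c ∨ (¬ (Odd a ∧ Odd b ∧ Even c) ∧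
      m ^ 5 ≤ 10 ^ 16 * max a (max b c) ^ 18 ∧
      ∃ g h : ℤ[X], g.Monic ∧ h.Monic ∧ g.natDegree = 3 ∧ h.natDegree = 3 ∧
        cuboid a b c = g.comp (X ^ 2) * h.comp (X ^ 2)) := by
  have a1 : 0 < a ∧ a ≤ max a (max b c) := ⟨ha, le_max_left _ _⟩
  have b1 : 0 < b ∧ b ≤ max a (max b c) := ⟨hb, (le_max_left _ _).trans (le_max_right _ _)⟩
  have c1 : 0 < c ∧ c ≤ max a (max b c) := ⟨hc, (le_max_right _ _).trans (le_max_right _ _)⟩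
  obtain ⟨w0, h1⟩ := Sq.sex_cases a1 b1 c1 hodd hw hm hk hN
  refine h1.imp (Sq.three_of_sex ha.ne' hb.ne' hc.ne' w0) fun ⟨h2, g, h, h3, h4, h5, h6, e⟩ =>
    ⟨h2, Sq.split_small a1 b1 c1 hw hm hk (lt_of_le_of_lt (by positivity) hN) w0 h3 h4 h5 h6 e,
      g, h, h3, h4, h5, h6, ?_⟩
  rw [← mul_comp, ← e]
  simp only [sex, cuboid, k8, k6, k4, k2, add_comp, mul_comp, pow_comp, X_comp, C_comp, ← pow_mul]

end Pool.Agent.Results.MP_50039c_nt.SquarefreePart
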